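import Pool.Agent.H452.CND.Many

/-!
# Continuum many pairs of quasi-isometric groups, one condensed and the other not (helper452)

The groups are soluble of derived length at most three. For each set `X` of natural numbers there
are finitely generated groups `G X` and `H X`; `H X` is the quotient of `G X` by a central subgroup
of order two, `G X` is condensed and `H X` is not; for different `X` the groups `G X` are not
isomorphic and neither are the groups `H X`.
-/

set_option autoImplicit false

namespace Pool.Agent.Results.MP_f5330b_al.ContinuumPairs

open Pool.Agent.H67R3.CondDefs

/-- There are continuum many pairs `G X`, `H X` (`X` a set of natural numbers) of finitely generated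
groups, soluble of derived length at most three, such that `G X` and `H X` are quasi-isometric (`H X`
is even the quotient of `G X` by a central subgroup of order two), `G X` is condensed and `H X` is
not, and such that the groups `G X` are pairwise non-isomorphic and the groups `H X` are pairwise
non-isomorphic. -/
theorem result : ∃ (G H : Set ℕ → Type) (_ : ∀ X, Group (G X)) (_ : ∀ X, Group (H X)),
    (∀ X, Group.FG (G X) ∧ Group.FG (H X) ∧ QuasiIsometric (G X) (H X) ∧
      (∃ φ : G X →* H X, Function.Surjective φ ∧ Nat.card φ.ker = 2 ∧
        φ.ker ≤ Subgroup.center (G X)) ∧
      Condensed (G X) ∧ ¬ Condensed (H X) ∧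
      derivedSeries (G X) 3 = ⊥ ∧ derivedSeries (H X) 3 = ⊥) ∧
    ∀ X Y, X ≠ Y → IsEmpty (G X ≃* G Y) ∧ IsEmpty (H X ≃* H Y) :=
  Pool.Agent.H452.CND.many

end Pool.Agent.Results.MP_f5330b_al.ContinuumPairs
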